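import Pool.Agent.Helper68.LM.St

/-!
# Project LM (MP_cb927e_an), module PH: the bump function
-/

set_option autoImplicit false

open MeasureTheory Set Filter Topology
open scoped ENNReal

namespace Pool.Agent.Helper29.LM

open Pool.Agent.Helper68.LM

theorem b_cont : Continuous fun x : Pl => max 0 (1 - ‖x‖) := by fun_prop

theorem b_supp : HasCompactSupport fun x : Pl => max 0 (1 - ‖x‖) := by
  refine HasCompactSupport.of_support_subset_isCompact (isCompact_closedBall (0 : Pl) 1) ?_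
  intro x hx
  rw [mem_closedBall_zero_iff]
  by_contra h
  rw [not_le] at h
  exact hx (max_eq_left (by linarith))

theorem b_int : Integrable fun x : Pl => max 0 (1 - ‖x‖) :=
  b_cont.integrable_of_hasCompactSupport b_supp

theorem b_pos : 0 < ∫ z : Pl, max 0 (1 - ‖z‖) := by
  refine b_cont.integral_pos_of_hasCompactSupport_nonneg_nonzero b_supp
    (fun x => le_max_left _ _) (x := 0) ?_
  simp

/-- PH. -/
theorem hPH : StPH := by
  have hJ := b_pos
  have hJi : 0 < (∫ z : Pl, max 0 (1 - ‖z‖))⁻¹ := inv_pos.2 hJ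
  refine ⟨?_, ?_, ?_, ?_, ?_, (∫ z : Pl, max 0 (1 - ‖z‖))⁻¹, hJi, ?_, ?_⟩
  · exact continuous_const.mul b_cont
  · intro x
    exact mul_nonneg hJi.le (le_max_left _ _)
  · intro x hx
    rw [ph, max_eq_left (by linarith), mul_zero]
  · have : (∫ x : Pl, ph x) = (∫ z : Pl, max 0 (1 - ‖z‖))⁻¹ * ∫ z : Pl, max 0 (1 - ‖z‖) :=
      integral_const_mul _ _
    rw [this, inv_mul_cancel₀ hJ.ne']
  · exact b_int.const_mul _
  · intro x
    have h : max 0 (1 - ‖x‖) ≤ 1 := max_le zero_le_one (by linarith [norm_nonneg x])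
    calc ph x ≤ (∫ z : Pl, max 0 (1 - ‖z‖))⁻¹ * 1 := mul_le_mul_of_nonneg_left h hJi.le
      _ = _ := mul_one _
  · intro x y
    rw [ph, ph, ← mul_sub, abs_mul, abs_of_pos hJi]
    refine mul_le_mul_of_nonneg_left ?_ hJi.le
    have h1 : |max 0 (1 - ‖x‖) - max 0 (1 - ‖y‖)| ≤ |(1 - ‖x‖) - (1 - ‖y‖)| := by
      rw [max_comm 0, max_comm 0]
      exact abs_max_sub_max_le_abs _ _ _
    refine h1.trans ?_
    have h2 : (1 - ‖x‖) - (1 - ‖y‖) = ‖y‖ - ‖x‖ := by ring
    rw [h2, norm_sub_rev]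
    exact abs_norm_sub_norm_le y x

end Pool.Agent.Helper29.LM
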