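import Pool.Agent.Helper68.LM.St

/-!
# Project LM (MP_cb927e_an), module PA: the maximal theorem for `p ≥ 2`
-/

set_option autoImplicit false

open MeasureTheory Set Filter Topology
open scoped ENNReal

namespace Pool.Agent.Helper29.LM

open Pool.Agent.Helper68.LM

theorem BB_hi (g : Pl → ℝ) (hg : BB g) (c : ℝ) : BB (fun x => if c < g x then g x else 0) := by
  obtain ⟨hm, K, hK, hK'⟩ := hg
  refine ⟨Measurable.ite (measurableSet_lt measurable_const hm) hm measurable_const, K, ?_, ?_⟩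
  · intro x
    have h := hK x
    dsimp only
    split_ifs
    · exact h
    · rw [abs_zero]
      exact (abs_nonneg _).trans h
  · intro x hx
    dsimp only
    rw [hK' x hx, ite_self]

theorem Ek_split (hBBC : StBBC) (ν : Measure Pl) (R L : ℝ) (hν : Bd R L ν) (k : ℤ)
    (g g₂ : Pl → ℝ) (hg : BB g) (hg₂ : BB g₂) (x : Pl) :
    Ek ν k g x = Ek ν k (fun y => g y - g₂ y) x + Ek ν k g₂ x := by
  obtain ⟨h1, h2, h3, h4, h5, h6, h7⟩ := hBBC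
  have hg₁ := h1 g g₂ hg hg₂
  have e : (fun y => g y - Sm ((2 : ℝ) ^ k) g y) = fun y =>
      ((g y - g₂ y) - Sm ((2 : ℝ) ^ k) (fun y => g y - g₂ y) y) +
        (g₂ y - Sm ((2 : ℝ) ^ k) g₂ y) := by
    funext y
    have h := h6 (fun y => g y - g₂ y) g₂ ((2 : ℝ) ^ k) y hg₁ hg₂
    simp only [sub_add_cancel] at h
    rw [h]
    ring
  rw [Ek, e]
  exact h7 ν R L _ _ _ x hν (h1 _ _ hg₁ (h2 _ _ hg₁)) (h1 _ _ hg₂ (h2 _ _ hg₂))

theorem Av_split (hBBC : StBBC) (ν : Measure Pl) (R L : ℝ) (hν : Bd R L ν) (k : ℤ)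
    (g : Pl → ℝ) (hg : BB g) (x : Pl) :
    Av ν ((2 : ℝ) ^ k) g x = Av ν ((2 : ℝ) ^ k) (Sm ((2 : ℝ) ^ k) g) x + Ek ν k g x := by
  obtain ⟨h1, h2, h3, h4, h5, h6, h7⟩ := hBBC
  have h := h7 ν R L ((2 : ℝ) ^ k) (Sm ((2 : ℝ) ^ k) g) (fun y => g y - Sm ((2 : ℝ) ^ k) g y) x hν
    (h2 _ _ hg) (h1 _ _ hg (h2 _ _ hg))
  simp only [add_sub_cancel] at h
  exact h

theorem Ek_meas (hBBC : StBBC) (ν : Measure Pl) (R L : ℝ) (hν : Bd R L ν) (k : ℤ)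
    (g : Pl → ℝ) (hg : BB g) : Measurable (Ek ν k g) := by
  obtain ⟨h1, h2, h3, h4, h5, h6, h7⟩ := hBBC
  exact (h3 ν R L ((2 : ℝ) ^ k) _ hν (by positivity) (h1 _ _ hg (h2 _ _ hg))).1

theorem T_meas (hBBC : StBBC) (ν : Measure Pl) (R L : ℝ) (hν : Bd R L ν)
    (g : Pl → ℝ) (hg : BB g) : Measurable (fun x => ⨆ k : ℤ, ‖Ek ν k g x‖ₑ) :=
  Measurable.iSup fun k => (Ek_meas hBBC ν R L hν k g hg).enorm

theorem sup_sq (a : ℤ → ℝ≥0∞) : (⨆ k, a k) ^ 2 ≤ ∑' k, a k ^ 2 := by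
  have h := (ENNReal.orderIsoRpow 2 (by norm_num)).map_iSup a
  simp only [ENNReal.orderIsoRpow_apply] at h
  rw [← ENNReal.rpow_two, h]
  refine iSup_le fun k => ?_
  rw [ENNReal.rpow_two]
  exact ENNReal.le_tsum k

/-- the `L²` bound for the maximal function of the `Ek` -/
theorem T_two (hBBC : StBBC) (C : ℝ) (hC : ∀ (ν : Measure Pl) (R L : ℝ) (N : ℕ), Bd R L ν →
    0 < L → Dec L N ν → ∀ g : Pl → ℝ, BB g →
      ∑' k : ℤ, ∫⁻ x, ‖Ek ν k g x‖ₑ ^ 2 ≤ ENNReal.ofReal (C * L ^ 2 * (N + 1)) * ∫⁻ x, ‖g x‖ₑ ^ 2)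
    (ν : Measure Pl) (R L : ℝ) (N : ℕ) (hν : Bd R L ν) (hL : 0 < L) (hD : Dec L N ν)
    (g : Pl → ℝ) (hg : BB g) :
    ∫⁻ x, (⨆ k : ℤ, ‖Ek ν k g x‖ₑ) ^ 2 ≤
      ENNReal.ofReal (C * L ^ 2 * (N + 1)) * ∫⁻ x, ‖g x‖ₑ ^ 2 := by
  refine le_trans ?_ (hC ν R L N hν hL hD g hg)
  rw [← lintegral_tsum fun k => ((Ek_meas hBBC ν R L hν k g hg).enorm.pow_const 2).aemeasurable]
  exact lintegral_mono fun x => sup_sq _

/-- the weak type bound -/
theorem T_weak (hBBC : StBBC) (C : ℝ) (hC0 : 0 < C) (hC : ∀ (ν : Measure Pl) (R L : ℝ) (N : ℕ),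
    Bd R L ν → 0 < L → Dec L N ν → ∀ g : Pl → ℝ, BB g →
      ∑' k : ℤ, ∫⁻ x, ‖Ek ν k g x‖ₑ ^ 2 ≤ ENNReal.ofReal (C * L ^ 2 * (N + 1)) * ∫⁻ x, ‖g x‖ₑ ^ 2)
    (ν : Measure Pl) (R L : ℝ) (N : ℕ) (hν : Bd R L ν) (hL : 0 < L) (hD : Dec L N ν)
    (g : Pl → ℝ) (hg : BB g) (hg0 : ∀ x, 0 ≤ g x) (lam : ℝ) (hlam : 0 < lam) :
    volume {x | ENNReal.ofReal lam < ⨆ k : ℤ, ‖Ek ν k g x‖ₑ} ≤
      ENNReal.ofReal (4 * (C * L ^ 2 * (N + 1)) / lam ^ 2) *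
        ∫⁻ x in {x | 1 / (4 * L) * lam < g x}, ENNReal.ofReal (g x) ^ 2 := by
  set c : ℝ := 1 / (4 * L) * lam with hc
  have hc0 : 0 < c := by positivity
  set g₂ : Pl → ℝ := fun x => if c < g x then g x else 0 with hg₂
  have hB₂ : BB g₂ := BB_hi g hg c
  have hB₁ : BB (fun y => g y - g₂ y) := hBBC.1 g g₂ hg hB₂
  have hg₁ : ∀ x, |g x - g₂ x| ≤ c := by
    intro x
    simp only [hg₂]
    split_ifs with h
    · rw [sub_self, abs_zero]
      exact hc0.le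
    · rw [sub_zero, abs_of_nonneg (hg0 x)]
      exact not_lt.1 h
  have hE₁ : ∀ (k : ℤ) (x : Pl), |Ek ν k (fun y => g y - g₂ y) x| ≤ lam / 2 := by
    intro k x
    have h1 : ∀ y, |(g y - g₂ y) - Sm ((2 : ℝ) ^ k) (fun y => g y - g₂ y) y| ≤ 2 * c := by
      intro y
      have h2 := hBBC.2.2.2.1 (fun y => g y - g₂ y) c ((2 : ℝ) ^ k) hg₁ y
      have h3 := abs_sub (g y - g₂ y) (Sm ((2 : ℝ) ^ k) (fun y => g y - g₂ y) y)
      linarith [hg₁ y]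
    have h2 := hBBC.2.2.2.2.1 ν R L ((2 : ℝ) ^ k)
      (fun y => (g y - g₂ y) - Sm ((2 : ℝ) ^ k) (fun y => g y - g₂ y) y) (2 * c) hν hL.le h1 x
    have h3 : L * (2 * c) = lam / 2 := by
      rw [hc]
      field_simp
      ring
    rw [h3] at h2
    exact h2
  have hsub : {x | ENNReal.ofReal lam < ⨆ k : ℤ, ‖Ek ν k g x‖ₑ} ⊆
      {x | ENNReal.ofReal (lam / 2) ^ 2 ≤ (⨆ k : ℤ, ‖Ek ν k g₂ x‖ₑ) ^ 2} := by
    intro x hx
    rw [mem_setOf_eq, lt_iSup_iff] at hx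
    obtain ⟨k, hk⟩ := hx
    rw [Real.enorm_eq_ofReal_abs, ENNReal.ofReal_lt_ofReal_iff_of_nonneg hlam.le] at hk
    have h1 := Ek_split hBBC ν R L hν k g g₂ hg hB₂ x
    have h2 := abs_add_le (Ek ν k (fun y => g y - g₂ y) x) (Ek ν k g₂ x)
    rw [← h1] at h2
    have h3 : lam / 2 ≤ |Ek ν k g₂ x| := by linarith [hE₁ k x]
    change ENNReal.ofReal (lam / 2) ^ 2 ≤ (⨆ k : ℤ, ‖Ek ν k g₂ x‖ₑ) ^ 2
    refine pow_le_pow_left' ?_ 2
    refine le_trans ?_ (le_iSup (fun k => ‖Ek ν k g₂ x‖ₑ) k)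
    rw [Real.enorm_eq_ofReal_abs]
    exact ENNReal.ofReal_le_ofReal h3
  have h4 := mul_meas_ge_le_lintegral (μ := volume) ((T_meas hBBC ν R L hν g₂ hB₂).pow_const 2)
    (ENNReal.ofReal (lam / 2) ^ 2)
  have h5 := T_two hBBC C hC ν R L N hν hL hD g₂ hB₂
  have h6 : ∫⁻ x, ‖g₂ x‖ₑ ^ 2 = ∫⁻ x in {x | c < g x}, ENNReal.ofReal (g x) ^ 2 := by
    rw [← lintegral_indicator (measurableSet_lt measurable_const hg.1)]
    refine lintegral_congr fun x => ?_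
    by_cases h : c < g x
    · rw [indicator_of_mem (by exact h)]
      simp only [hg₂, if_pos h]
      rw [Real.enorm_of_nonneg (hg0 x)]
    · rw [indicator_of_notMem (by exact h)]
      simp only [hg₂, if_neg h]
      simp
  rw [h6] at h5
  have h7 : ENNReal.ofReal (lam / 2) ^ 2 *
      volume {x | ENNReal.ofReal lam < ⨆ k : ℤ, ‖Ek ν k g x‖ₑ} ≤
      ENNReal.ofReal (C * L ^ 2 * (N + 1)) *
        ∫⁻ x in {x | c < g x}, ENNReal.ofReal (g x) ^ 2 := by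
    refine le_trans ?_ (h4.trans h5)
    gcongr
  have hpos : 0 < (lam / 2) ^ 2 := by positivity
  rw [← ENNReal.ofReal_pow (by positivity)] at h7
  have h8 : volume {x | ENNReal.ofReal lam < ⨆ k : ℤ, ‖Ek ν k g x‖ₑ} ≤
      ENNReal.ofReal (((lam / 2) ^ 2)⁻¹) * (ENNReal.ofReal (C * L ^ 2 * (N + 1)) *
        ∫⁻ x in {x | c < g x}, ENNReal.ofReal (g x) ^ 2) := by
    calc volume {x | ENNReal.ofReal lam < ⨆ k : ℤ, ‖Ek ν k g x‖ₑ}
        = ENNReal.ofReal (((lam / 2) ^ 2)⁻¹) * (ENNReal.ofReal ((lam / 2) ^ 2) *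
            volume {x | ENNReal.ofReal lam < ⨆ k : ℤ, ‖Ek ν k g x‖ₑ}) := by
          rw [← mul_assoc, ← ENNReal.ofReal_mul (by positivity), inv_mul_cancel₀ hpos.ne',
            ENNReal.ofReal_one, one_mul]
      _ ≤ _ := by gcongr
  refine h8.trans (le_of_eq ?_)
  rw [← mul_assoc, ← ENNReal.ofReal_mul (by positivity)]
  congr 2
  field_simp
  ring

/-- the `L^p` bound for the maximal function of the `Ek` -/
theorem T_bound (hBBC : StBBC) (hMZ2 : StMZ2) (hL2E : StL2E) (p : ℝ) (hp : 2 ≤ p) :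
    ∃ B : ℝ, 0 < B ∧ ∀ (ν : Measure Pl) (R L : ℝ) (N : ℕ), Bd R L ν → 0 < L → Dec L N ν →
      ∀ g : Pl → ℝ, BB g → (∀ x, 0 ≤ g x) →
      ∫⁻ x, (⨆ k : ℤ, ‖Ek ν k g x‖ₑ) ^ p ≤
        ENNReal.ofReal (B * L ^ p * (N + 1)) * ∫⁻ x, ENNReal.ofReal (g x) ^ p := by
  obtain ⟨C, hC0, hC⟩ := hL2E
  rcases hp.eq_or_lt with rfl | hp2
  · refine ⟨C, hC0, fun ν R L N hν hL hD g hg hg0 => ?_⟩
    have h := T_two hBBC C hC ν R L N hν hL hD g hg
    simp only [ENNReal.rpow_two, Real.rpow_two]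
    refine h.trans (le_of_eq ?_)
    congr 1
    refine lintegral_congr fun x => ?_
    rw [Real.enorm_of_nonneg (hg0 x)]
  · obtain ⟨C₂, hC₂, hMZ⟩ := hMZ2 p hp2
    refine ⟨C₂ * (4 * C * (4 : ℝ) ^ (p - 2)), by positivity, fun ν R L N hν hL hD g hg hg0 => ?_⟩
    have h := hMZ g (fun x => ⨆ k : ℤ, ‖Ek ν k g x‖ₑ) (1 / (4 * L)) (4 * (C * L ^ 2 * (N + 1)))
      hg.1 hg0 (T_meas hBBC ν R L hν g hg) (by positivity) (by positivity)
      (fun lam hlam => T_weak hBBC C hC0 hC ν R L N hν hL hD g hg hg0 lam hlam)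
    refine h.trans (le_of_eq ?_)
    congr 2
    have e1 : (1 / (4 * L)) ^ (2 - p) = (4 : ℝ) ^ (p - 2) * L ^ (p - 2) := by
      rw [one_div, Real.inv_rpow (by positivity), ← Real.rpow_neg (by positivity), neg_sub,
        Real.mul_rpow (by norm_num) hL.le]
    have e2 : L ^ p = L ^ (p - 2) * L ^ 2 := by
      rw [← Real.rpow_two, ← Real.rpow_add hL, sub_add_cancel]
    rw [e1, e2]
    ring

/-- PA. -/
theorem hPA (hBBC : StBBC) (hMZ2 : StMZ2) (hHLS : StHLS) (hHLD : StHLD) (hL2E : StL2E) : StPA := by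
  intro p R hp hR
  obtain ⟨B, hB, hT⟩ := T_bound hBBC hMZ2 hL2E p hp
  obtain ⟨hHLm, hHL⟩ := hHLS
  obtain ⟨CS, hCS, hS⟩ := hHL (R + 1) (by linarith) p (by linarith)
  obtain ⟨CD, hCD, hDom⟩ := hHLD R hR
  refine ⟨2 ^ (p - 1) * (CD ^ p * CS + B), by positivity, ?_⟩
  intro ν L N hν hL hD g hg hg0
  set G : ℝ≥0∞ := ∫⁻ x, ENNReal.ofReal (g x) ^ p with hG
  have hpt : ∀ x, (⨆ k : ℤ, ENNReal.ofReal (Av ν ((2 : ℝ) ^ k) g x)) ≤
      ENNReal.ofReal (CD * L) * HL (R + 1) g x + ⨆ k : ℤ, ‖Ek ν k g x‖ₑ := by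
    intro x
    refine iSup_le fun k => ?_
    rw [Av_split hBBC ν R L hν k g hg x]
    refine ENNReal.ofReal_add_le.trans (add_le_add (hDom ν L hν hL g hg hg0 k x) ?_)
    refine le_trans ?_ (le_iSup (fun k => ‖Ek ν k g x‖ₑ) k)
    rw [Real.enorm_eq_ofReal_abs]
    exact ENNReal.ofReal_le_ofReal (le_abs_self _)
  have hmH : Measurable fun x => (ENNReal.ofReal (CD * L) * HL (R + 1) g x) ^ p :=
    ((hHLm (R + 1) g hg).const_mul _).pow_const p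
  have hLp : 0 < L ^ p := by positivity
  have hN : (1 : ℝ) ≤ N + 1 := by
    have : (0 : ℝ) ≤ N := Nat.cast_nonneg N
    linarith
  calc ∫⁻ x, (⨆ k : ℤ, ENNReal.ofReal (Av ν ((2 : ℝ) ^ k) g x)) ^ p
      ≤ ∫⁻ x, 2 ^ (p - 1) * ((ENNReal.ofReal (CD * L) * HL (R + 1) g x) ^ p +
          (⨆ k : ℤ, ‖Ek ν k g x‖ₑ) ^ p) := by
        refine lintegral_mono fun x => ?_
        refine (ENNReal.rpow_le_rpow (hpt x) (by linarith)).trans ?_
        exact ENNReal.rpow_add_le_mul_rpow_add_rpow _ _ (by linarith)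
    _ = 2 ^ (p - 1) * ((∫⁻ x, (ENNReal.ofReal (CD * L) * HL (R + 1) g x) ^ p) +
          ∫⁻ x, (⨆ k : ℤ, ‖Ek ν k g x‖ₑ) ^ p) := by
        rw [lintegral_const_mul' _ _ (by
          exact ENNReal.rpow_ne_top_of_nonneg (by linarith) (by norm_num)), lintegral_add_left hmH]
    _ ≤ 2 ^ (p - 1) * (ENNReal.ofReal (CD ^ p * L ^ p * CS) * G +
          ENNReal.ofReal (B * L ^ p * (N + 1)) * G) := by
        refine mul_le_mul_right (add_le_add ?_ (hT ν R L N hν hL hD g hg hg0)) _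
        have e1 : ∀ x, (ENNReal.ofReal (CD * L) * HL (R + 1) g x) ^ p =
            ENNReal.ofReal (CD ^ p * L ^ p) * HL (R + 1) g x ^ p := by
          intro x
          rw [ENNReal.mul_rpow_of_nonneg _ _ (by linarith),
            ENNReal.ofReal_rpow_of_nonneg (by positivity) (by linarith),
            Real.mul_rpow hCD.le hL.le]
        simp only [e1]
        rw [lintegral_const_mul' _ _ ENNReal.ofReal_ne_top,
          ENNReal.ofReal_mul (p := CD ^ p * L ^ p) (by positivity), mul_assoc]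
        exact mul_le_mul_right (hS g hg hg0) _
    _ = ENNReal.ofReal (2 ^ (p - 1) * (CD ^ p * L ^ p * CS + B * L ^ p * (N + 1))) * G := by
        have e2 : (2 : ℝ≥0∞) ^ (p - 1) = ENNReal.ofReal (2 ^ (p - 1)) := by
          rw [← ENNReal.ofReal_rpow_of_pos (by norm_num)]
          norm_num
        rw [e2, ← add_mul, ← ENNReal.ofReal_add (by positivity) (by positivity), ← mul_assoc,
          ← ENNReal.ofReal_mul (by positivity)]
    _ ≤ _ := by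
        refine mul_le_mul_left (ENNReal.ofReal_le_ofReal ?_) _
        have h1 : 0 ≤ CD ^ p * L ^ p * CS := by positivity
        have h2 : CD ^ p * L ^ p * CS ≤ CD ^ p * L ^ p * CS * (N + 1) :=
          le_mul_of_one_le_right h1 hN
        calc 2 ^ (p - 1) * (CD ^ p * L ^ p * CS + B * L ^ p * (N + 1))
            ≤ 2 ^ (p - 1) * (CD ^ p * L ^ p * CS * (N + 1) + B * L ^ p * (N + 1)) := by
              gcongr
          _ = _ := by ring

end Pool.Agent.Helper29.LM
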