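import Pool.Agent.Helper68.LM.St

/-!
# Project LM (MP_cb927e_an), module PB: the maximal theorem for `1 < p < 2`
-/

set_option autoImplicit false

open MeasureTheory Set Filter Topology
open scoped ENNReal

namespace Pool.Agent.Helper29.LM.PB

open Pool.Agent.Helper68.LM

/-! ### Minkowski's inequality for series -/

theorem mink_sum {p : ℝ} (hp : 1 ≤ p) (f : ℕ → Pl → ℝ≥0∞) (hf : ∀ j, Measurable (f j)) (n : ℕ) :
    (∫⁻ x, (∑ j ∈ Finset.range n, f j x) ^ p) ^ (1 / p) ≤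
      ∑ j ∈ Finset.range n, (∫⁻ x, f j x ^ p) ^ (1 / p) := by
  induction n with
  | zero =>
    have h0 : (0 : ℝ) < p := by linarith
    simp only [Finset.range_zero, Finset.sum_empty]
    rw [ENNReal.zero_rpow_of_pos h0, lintegral_zero, ENNReal.zero_rpow_of_pos (by positivity)]
  | succ n ih =>
    have h := ENNReal.lintegral_Lp_add_le (μ := (volume : Measure Pl))
      (f := fun x => ∑ j ∈ Finset.range n, f j x) (g := f n)
      (Finset.measurable_fun_sum _ fun j _ => hf j).aemeasurable (hf n).aemeasurable hp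
    rw [Finset.sum_range_succ]
    simp only [Finset.sum_range_succ]
    exact h.trans (add_le_add ih le_rfl)

theorem mink_tsum {p : ℝ} (hp : 1 ≤ p) (f : ℕ → Pl → ℝ≥0∞) (hf : ∀ j, Measurable (f j)) :
    (∫⁻ x, (∑' j, f j x) ^ p) ^ (1 / p) ≤ ∑' j, (∫⁻ x, f j x ^ p) ^ (1 / p) := by
  have h0 : (0 : ℝ) < p := by linarith
  have h1 : ∀ x, (∑' j, f j x) ^ p = ⨆ n : ℕ, (∑ j ∈ Finset.range n, f j x) ^ p := by
    intro x
    have h := (ENNReal.orderIsoRpow p h0).map_iSup fun n : ℕ => ∑ j ∈ Finset.range n, f j x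
    simp only [ENNReal.orderIsoRpow_apply] at h
    rw [ENNReal.tsum_eq_iSup_nat, h]
  simp only [h1]
  rw [lintegral_iSup]
  · have h := (ENNReal.orderIsoRpow (1 / p) (by positivity)).map_iSup
      fun n : ℕ => ∫⁻ x, (∑ j ∈ Finset.range n, f j x) ^ p
    simp only [ENNReal.orderIsoRpow_apply] at h
    rw [h]
    refine iSup_le fun n => (mink_sum hp f hf n).trans ?_
    exact ENNReal.sum_le_tsum _
  · intro n
    exact (Finset.measurable_fun_sum _ fun j _ => hf j).pow_const p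
  · intro n m hnm x
    refine ENNReal.rpow_le_rpow ?_ h0.le
    exact Finset.sum_le_sum_of_subset (Finset.range_mono hnm)

/-! ### The pointwise bound -/

theorem Dk_meas (hBBC : StBBC) (ν : Measure Pl) (R L : ℝ) (hν : Bd R L ν) (a b : ℕ) (k : ℤ)
    (g : Pl → ℝ) (hg : BB g) : Measurable (Dk ν a b k g) := by
  obtain ⟨h1, h2, h3, h4, h5, h6, h7⟩ := hBBC
  exact (h3 ν R L ((2 : ℝ) ^ k) _ hν (by positivity) (h1 _ _ (h2 _ _ hg) (h2 _ _ hg))).1

theorem T_meas (hBBC : StBBC) (ν : Measure Pl) (R L : ℝ) (hν : Bd R L ν) (a b : ℕ)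
    (g : Pl → ℝ) (hg : BB g) : Measurable (fun x => ⨆ k : ℤ, ‖Dk ν a b k g x‖ₑ) :=
  Measurable.iSup fun k => (Dk_meas hBBC ν R L hν a b k g hg).enorm

theorem Dk_eq (hBBC : StBBC) (ν : Measure Pl) (R L : ℝ) (hν : Bd R L ν) (a b : ℕ) (k : ℤ)
    (g : Pl → ℝ) (hg : BB g) (x : Pl) :
    Dk ν a b k g x = Av ν ((2 : ℝ) ^ k) (Sm ((2 : ℝ) ^ (k - (a : ℤ))) g) x -
      Av ν ((2 : ℝ) ^ k) (Sm ((2 : ℝ) ^ (k - (b : ℤ))) g) x := by
  obtain ⟨h1, h2, h3, h4, h5, h6, h7⟩ := hBBC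
  have h := h7 ν R L ((2 : ℝ) ^ k)
    (fun y => Sm ((2 : ℝ) ^ (k - (a : ℤ))) g y - Sm ((2 : ℝ) ^ (k - (b : ℤ))) g y)
    (Sm ((2 : ℝ) ^ (k - (b : ℤ))) g) x hν (h1 _ _ (h2 _ _ hg) (h2 _ _ hg)) (h2 _ _ hg)
  simp only [sub_add_cancel] at h
  rw [Dk]
  linarith

theorem point (hBBC : StBBC) (ν : Measure Pl) (R L : ℝ) (hν : Bd R L ν) (N : ℕ)
    (g : Pl → ℝ) (hg : BB g) (x : Pl) (k : ℤ) (D : ℝ≥0∞)
    (hD : ENNReal.ofReal (Av ν ((2 : ℝ) ^ k) (Sm ((2 : ℝ) ^ k) g) x) ≤ D)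
    (hconv : Tendsto (fun m : ℕ => Av ν ((2 : ℝ) ^ k) (Sm ((2 : ℝ) ^ (k - (m : ℤ))) g) x) atTop
      (𝓝 (Av ν ((2 : ℝ) ^ k) g x))) :
    ENNReal.ofReal (Av ν ((2 : ℝ) ^ k) g x) ≤
      (D + ⨆ k : ℤ, ‖Dk ν N 0 k g x‖ₑ) +
        ∑' j : ℕ, ⨆ k : ℤ, ‖Dk ν (N + j + 1) (N + j) k g x‖ₑ := by
  have hstep : ∀ a b : ℕ, ENNReal.ofReal (Av ν ((2 : ℝ) ^ k) (Sm ((2 : ℝ) ^ (k - (a : ℤ))) g) x) ≤
      ENNReal.ofReal (Av ν ((2 : ℝ) ^ k) (Sm ((2 : ℝ) ^ (k - (b : ℤ))) g) x) +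
        ⨆ k : ℤ, ‖Dk ν a b k g x‖ₑ := by
    intro a b
    have e : Av ν ((2 : ℝ) ^ k) (Sm ((2 : ℝ) ^ (k - (a : ℤ))) g) x =
        Av ν ((2 : ℝ) ^ k) (Sm ((2 : ℝ) ^ (k - (b : ℤ))) g) x + Dk ν a b k g x := by
      rw [Dk_eq hBBC ν R L hν a b k g hg x]
      ring
    rw [e]
    refine ENNReal.ofReal_add_le.trans (add_le_add le_rfl ?_)
    refine le_trans ?_ (le_iSup (fun k => ‖Dk ν a b k g x‖ₑ) k)
    rw [Real.enorm_eq_ofReal_abs]
    exact ENNReal.ofReal_le_ofReal (le_abs_self _)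
  have hfin : ∀ j : ℕ,
      ENNReal.ofReal (Av ν ((2 : ℝ) ^ k) (Sm ((2 : ℝ) ^ (k - ((N + j : ℕ) : ℤ))) g) x) ≤
      (D + ⨆ k : ℤ, ‖Dk ν N 0 k g x‖ₑ) +
        ∑ i ∈ Finset.range j, ⨆ k : ℤ, ‖Dk ν (N + i + 1) (N + i) k g x‖ₑ := by
    intro j
    induction j with
    | zero =>
      have h := hstep N 0
      rw [Nat.cast_zero, sub_zero] at h
      rw [Finset.range_zero, Finset.sum_empty, add_zero, add_zero]
      exact h.trans (add_le_add hD le_rfl)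
    | succ j ih =>
      have h := hstep (N + j + 1) (N + j)
      rw [Finset.sum_range_succ]
      exact (h.trans (add_le_add ih le_rfl)).trans (add_assoc _ _ _).le
  have hlim : Tendsto (fun j : ℕ =>
      ENNReal.ofReal (Av ν ((2 : ℝ) ^ k) (Sm ((2 : ℝ) ^ (k - ((N + j : ℕ) : ℤ))) g) x)) atTop
      (𝓝 (ENNReal.ofReal (Av ν ((2 : ℝ) ^ k) g x))) := by
    refine (ENNReal.continuous_ofReal.tendsto _).comp ?_
    have h := hconv.comp (tendsto_add_atTop_nat N)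
    refine h.congr fun j => ?_
    simp only [Function.comp_apply]
    rw [add_comm j N]
  refine le_of_tendsto' hlim fun j => (hfin j).trans (add_le_add le_rfl ?_)
  exact ENNReal.sum_le_tsum _

/-! ### Constants -/

theorem om (a b : ℝ) (ha : 0 ≤ a) (G : ℝ≥0∞) :
    ENNReal.ofReal a * (ENNReal.ofReal b * G) = ENNReal.ofReal (a * b) * G := by
  rw [ENNReal.ofReal_mul ha, mul_assoc]

theorem td_const {p CT C L n s : ℝ} (hC : 0 < C) (hL : 0 < L) (hn : 0 < n) (hs : 0 < s) :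
    CT * ((L * n) ^ (2 - p) * (C * L ^ 2 * s) ^ (p - 1)) =
      CT * C ^ (p - 1) * (n ^ (2 - p) * s ^ (p - 1)) * L ^ p := by
  have e1 : (L * n) ^ (2 - p) = L ^ (2 - p) * n ^ (2 - p) := Real.mul_rpow hL.le hn.le
  have e2 : (C * L ^ 2 * s) ^ (p - 1) = C ^ (p - 1) * L ^ (2 * (p - 1)) * s ^ (p - 1) := by
    rw [Real.mul_rpow (by positivity) hs.le, Real.mul_rpow hC.le (by positivity),
      Real.rpow_mul hL.le, Real.rpow_two]
  have e3 : L ^ p = L ^ (2 - p) * L ^ (2 * (p - 1)) := by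
    rw [← Real.rpow_add hL]
    congr 1
    ring
  rw [e1, e2, e3]
  ring

/-- the first piece -/
theorem piece0 (hBBC : StBBC) (hL2D : StL2D) (hTD : StTD) (p R : ℝ) (hp1 : 1 < p) (hp2 : p < 2)
    (hR : 0 < R) : ∃ K : ℝ, 0 < K ∧ ∀ (ν : Measure Pl) (L : ℝ) (N : ℕ), Bd R L ν → 0 < L →
      Dec L N ν → ∀ g : Pl → ℝ, BB g → (∀ x, 0 ≤ g x) →
      (∫⁻ x, (⨆ k : ℤ, ‖Dk ν N 0 k g x‖ₑ) ^ p ≤
        ENNReal.ofReal K *
          (ENNReal.ofReal (L ^ p * (N + 1)) * ∫⁻ x, ENNReal.ofReal (g x) ^ p)) ∧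
      ∀ j : ℕ, ∫⁻ x, (⨆ k : ℤ, ‖Dk ν (N + j + 1) (N + j) k g x‖ₑ) ^ p ≤
        ENNReal.ofReal (2 * K * ((j + 1) * ((1 / 2 : ℝ) ^ (p - 1)) ^ j)) *
          (ENNReal.ofReal (L ^ p * (N + 1)) * ∫⁻ x, ENNReal.ofReal (g x) ^ p) := by
  obtain ⟨C, hC, hL2⟩ := hL2D
  obtain ⟨CT, hCT, hT⟩ := hTD p R (Real.sqrt C) hp1 hp2 hR (Real.sqrt_pos.2 hC)
  refine ⟨CT * C ^ (p - 1), by positivity, ?_⟩
  intro ν L N hν hL hD g hg hg0
  have hN : (0 : ℝ) < N + 1 := by positivity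
  constructor
  · have hA : (Real.sqrt (C * (N + 1)) * L) ^ 2 = C * L ^ 2 * (N + 1) := by
      rw [mul_pow, Real.sq_sqrt (by positivity)]
      ring
    have hle : Real.sqrt (C * (N + 1)) * L ≤ Real.sqrt C * (L * (N + 1)) := by
      have h1 : Real.sqrt (C * (N + 1)) ≤ Real.sqrt (C * ((N : ℝ) + 1) ^ 2) := by
        refine Real.sqrt_le_sqrt (mul_le_mul_of_nonneg_left ?_ hC.le)
        have : (0 : ℝ) ≤ N := Nat.cast_nonneg N
        nlinarith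
      rw [Real.sqrt_mul hC.le, Real.sqrt_mul hC.le, Real.sqrt_sq hN.le] at h1
      rw [Real.sqrt_mul hC.le]
      nlinarith
    have h := hT ν L (Real.sqrt (C * (N + 1)) * L) N 0 hν hL (by positivity) hle (Nat.zero_le N)
      (fun g hg => by
        rw [hA]
        exact (hL2 ν R L N hν hL hD N 0 (Nat.zero_le N) g hg).1 rfl) g hg hg0
    refine h.trans (le_of_eq ?_)
    rw [hA, td_const hC hL hN hN, om _ _ (by positivity)]
    congr 2
    rw [← Real.rpow_add hN, show 2 - p + (p - 1) = 1 by ring, Real.rpow_one]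
    ring
  · intro j
    have hz : (2 : ℝ) ^ ((N : ℤ) - ((N + j : ℕ) : ℤ)) = (1 / 2 : ℝ) ^ j := by
      rw [show ((N : ℤ) - ((N + j : ℕ) : ℤ)) = -(j : ℤ) by push_cast; ring, zpow_neg, zpow_natCast,
        one_div, inv_pow]
    have hs : (0 : ℝ) < (1 / 2 : ℝ) ^ j := by positivity
    have hs1 : (1 / 2 : ℝ) ^ j ≤ 1 := pow_le_one₀ (by norm_num) (by norm_num)
    have hA : (Real.sqrt (C * (1 / 2 : ℝ) ^ j) * L) ^ 2 = C * L ^ 2 * (1 / 2 : ℝ) ^ j := by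
      rw [mul_pow, Real.sq_sqrt (by positivity)]
      ring
    have hn : (0 : ℝ) < ((N + j + 1 : ℕ) : ℝ) + 1 := by positivity
    have hn1 : (1 : ℝ) ≤ ((N + j + 1 : ℕ) : ℝ) + 1 := by
      have : (0 : ℝ) ≤ ((N + j + 1 : ℕ) : ℝ) := Nat.cast_nonneg _
      linarith
    have hle : Real.sqrt (C * (1 / 2 : ℝ) ^ j) * L ≤
        Real.sqrt C * (L * (((N + j + 1 : ℕ) : ℝ) + 1)) := by
      have h1 : Real.sqrt (C * (1 / 2 : ℝ) ^ j) ≤ Real.sqrt C :=
        Real.sqrt_le_sqrt (by nlinarith)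
      have h2 : 0 ≤ Real.sqrt C := Real.sqrt_nonneg C
      calc Real.sqrt (C * (1 / 2 : ℝ) ^ j) * L ≤ Real.sqrt C * L :=
            mul_le_mul_of_nonneg_right h1 hL.le
        _ ≤ _ := mul_le_mul_of_nonneg_left (le_mul_of_one_le_right hL.le hn1) h2
    have h := hT ν L (Real.sqrt (C * (1 / 2 : ℝ) ^ j) * L) (N + j + 1) (N + j) hν hL
      (by positivity) hle (Nat.le_succ _)
      (fun g hg => by
        rw [hA, ← hz]
        exact (hL2 ν R L N hν hL hD (N + j + 1) (N + j) (Nat.le_succ _) g hg).2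
          (Nat.le_add_right N j)) g hg hg0
    refine h.trans ?_
    rw [hA, td_const hC hL hn hs, om _ _ (by positivity)]
    refine mul_le_mul_left (ENNReal.ofReal_le_ofReal ?_) _
    have e1 : ((1 / 2 : ℝ) ^ j) ^ (p - 1) = ((1 / 2 : ℝ) ^ (p - 1)) ^ j := by
      rw [← Real.rpow_natCast, ← Real.rpow_mul (by norm_num), mul_comm,
        Real.rpow_mul (by norm_num), Real.rpow_natCast]
    have e2 : (((N + j + 1 : ℕ) : ℝ) + 1) ^ (2 - p) ≤ 2 * ((N : ℝ) + 1) * (j + 1) := by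
      calc (((N + j + 1 : ℕ) : ℝ) + 1) ^ (2 - p) ≤ (((N + j + 1 : ℕ) : ℝ) + 1) ^ (1 : ℝ) :=
            Real.rpow_le_rpow_of_exponent_le hn1 (by linarith)
        _ = (N : ℝ) + j + 2 := by
            rw [Real.rpow_one]
            push_cast
            ring
        _ ≤ _ := by
            have h1 : (0 : ℝ) ≤ N := Nat.cast_nonneg N
            have h2 : (0 : ℝ) ≤ j := Nat.cast_nonneg j
            nlinarith [mul_nonneg h1 h2]
    rw [e1]
    have hr : 0 ≤ ((1 / 2 : ℝ) ^ (p - 1)) ^ j := by positivity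
    calc CT * C ^ (p - 1) *
          ((((N + j + 1 : ℕ) : ℝ) + 1) ^ (2 - p) * ((1 / 2 : ℝ) ^ (p - 1)) ^ j) * L ^ p
        ≤ CT * C ^ (p - 1) *
          ((2 * ((N : ℝ) + 1) * (j + 1)) * ((1 / 2 : ℝ) ^ (p - 1)) ^ j) * L ^ p := by
          gcongr
      _ = _ := by ring

/-- PB. -/
theorem hPB (hBBC : StBBC) (hHLS : StHLS) (hHLD : StHLD) (hL2D : StL2D) (hCONV : StCONV)
    (hTD : StTD) : StPB := by
  intro p R hp1 hp2 hR
  obtain ⟨K, hK, hpc⟩ := piece0 hBBC hL2D hTD p R hp1 hp2 hR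
  obtain ⟨hHLm, hHL⟩ := hHLS
  obtain ⟨CS, hCS, hS⟩ := hHL (R + 1) (by linarith) p hp1
  obtain ⟨CD, hCD, hDom⟩ := hHLD R hR
  have hp0 : 0 < p := by linarith
  set r : ℝ := (1 / 2 : ℝ) ^ (p - 1) with hr
  have hr0 : 0 < r := by positivity
  have hr1 : r < 1 := Real.rpow_lt_one (by norm_num) (by norm_num) (by linarith)
  set q : ℝ := r ^ (1 / p) with hq
  have hq0 : 0 < q := by positivity
  have hq1 : q < 1 := Real.rpow_lt_one hr0.le hr1 (by positivity)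
  have hsum : Summable fun j : ℕ => ((j : ℝ) + 1) * q ^ j := by
    have h1 := summable_pow_mul_geometric_of_norm_lt_one 1 (r := q)
      (by rw [Real.norm_of_nonneg hq0.le]; exact hq1)
    have h2 := summable_geometric_of_lt_one hq0.le hq1
    refine (h1.add h2).congr fun j => ?_
    rw [pow_one]
    ring
  set S : ℝ := ∑' j : ℕ, ((j : ℝ) + 1) * q ^ j with hSdef
  have hS0 : 0 ≤ S := tsum_nonneg fun j => by positivity
  set Dr : ℝ := (CD ^ p * CS) ^ (1 / p) + K ^ (1 / p) + (2 * K) ^ (1 / p) * S with hDr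
  have hDr0 : 0 < Dr := by positivity
  refine ⟨Dr ^ p, by positivity, ?_⟩
  intro ν L N hν hL hD g hg hg0
  obtain ⟨hT0, hTj⟩ := hpc ν L N hν hL hD g hg hg0
  set G : ℝ≥0∞ := ∫⁻ x, ENNReal.ofReal (g x) ^ p with hG
  set X : ℝ≥0∞ := ENNReal.ofReal (L ^ p * (N + 1)) * G with hX
  have hN1 : (1 : ℝ) ≤ N + 1 := by
    have : (0 : ℝ) ≤ N := Nat.cast_nonneg N
    linarith
  set f₁ : Pl → ℝ≥0∞ := fun x => ENNReal.ofReal (CD * L) * HL (R + 1) g x with hf₁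
  set f₂ : Pl → ℝ≥0∞ := fun x => ⨆ k : ℤ, ‖Dk ν N 0 k g x‖ₑ with hf₂
  set f₃ : ℕ → Pl → ℝ≥0∞ := fun j x => ⨆ k : ℤ, ‖Dk ν (N + j + 1) (N + j) k g x‖ₑ with hf₃
  have hm₁ : Measurable f₁ := (hHLm (R + 1) g hg).const_mul _
  have hm₂ : Measurable f₂ := T_meas hBBC ν R L hν N 0 g hg
  have hm₃ : ∀ j, Measurable (f₃ j) := fun j => T_meas hBBC ν R L hν _ _ g hg
  have hae : ∀ᵐ x, (⨆ k : ℤ, ENNReal.ofReal (Av ν ((2 : ℝ) ^ k) g x)) ^ p ≤
      ((f₁ + f₂) x + ∑' j, f₃ j x) ^ p := by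
    filter_upwards [hCONV ν R L hν g hg] with x hx
    refine ENNReal.rpow_le_rpow (iSup_le fun k => ?_) hp0.le
    exact point hBBC ν R L hν N g hg x k (f₁ x) (hDom ν L hν hL g hg hg0 k x) (hx k)
  have hn₁ : ∫⁻ x, f₁ x ^ p ≤ ENNReal.ofReal (CD ^ p * CS) * X := by
    have e1 : ∀ x, f₁ x ^ p = ENNReal.ofReal (CD ^ p * L ^ p) * HL (R + 1) g x ^ p := by
      intro x
      simp only [hf₁]
      rw [ENNReal.mul_rpow_of_nonneg _ _ hp0.le,
        ENNReal.ofReal_rpow_of_nonneg (by positivity) hp0.le, Real.mul_rpow hCD.le hL.le]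
    simp only [e1]
    rw [lintegral_const_mul' _ _ ENNReal.ofReal_ne_top]
    calc ENNReal.ofReal (CD ^ p * L ^ p) * ∫⁻ x, HL (R + 1) g x ^ p
        ≤ ENNReal.ofReal (CD ^ p * L ^ p) * (ENNReal.ofReal CS * G) :=
          mul_le_mul_right (hS g hg hg0) _
      _ = ENNReal.ofReal (CD ^ p * L ^ p * CS) * G := by
          rw [om _ _ (by positivity)]
      _ ≤ ENNReal.ofReal (CD ^ p * CS * (L ^ p * (N + 1))) * G := by
          refine mul_le_mul_left (ENNReal.ofReal_le_ofReal ?_) _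
          have h1 : 0 ≤ CD ^ p * CS * L ^ p := by positivity
          nlinarith [le_mul_of_one_le_right h1 hN1]
      _ = _ := by
          rw [hX, om _ _ (by positivity)]
  have hroot : ∀ (I : ℝ≥0∞) (c : ℝ), 0 ≤ c → I ≤ ENNReal.ofReal c * X →
      I ^ (1 / p) ≤ ENNReal.ofReal (c ^ (1 / p)) * X ^ (1 / p) := by
    intro I c hc hI
    refine (ENNReal.rpow_le_rpow hI (by positivity)).trans (le_of_eq ?_)
    rw [ENNReal.mul_rpow_of_nonneg _ _ (by positivity),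
      ENNReal.ofReal_rpow_of_nonneg hc (by positivity)]
  have hN₁ := hroot _ _ (by positivity) hn₁
  have hN₂ := hroot _ _ hK.le hT0
  have hN₃ : ∀ j : ℕ, (∫⁻ x, f₃ j x ^ p) ^ (1 / p) ≤
      ENNReal.ofReal ((2 * K) ^ (1 / p) * (((j : ℝ) + 1) * q ^ j)) * X ^ (1 / p) := by
    intro j
    refine (hroot _ _ (by positivity) (hTj j)).trans (mul_le_mul_left (ENNReal.ofReal_le_ofReal ?_) _)
    rw [Real.mul_rpow (x := 2 * K) (by positivity) (by positivity),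
      Real.mul_rpow (x := (j : ℝ) + 1) (by positivity) (by positivity)]
    have h1 : ((j : ℝ) + 1) ^ (1 / p) ≤ (j : ℝ) + 1 := by
      have h2 : (1 : ℝ) ≤ (j : ℝ) + 1 := by
        have : (0 : ℝ) ≤ j := Nat.cast_nonneg j
        linarith
      calc ((j : ℝ) + 1) ^ (1 / p) ≤ ((j : ℝ) + 1) ^ (1 : ℝ) :=
            Real.rpow_le_rpow_of_exponent_le h2 (by rw [div_le_one hp0]; exact hp1.le)
        _ = _ := Real.rpow_one _
    have h2 : (r ^ j) ^ (1 / p) = q ^ j := by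
      rw [hq, ← Real.rpow_natCast, ← Real.rpow_mul hr0.le, mul_comm, Real.rpow_mul hr0.le,
        Real.rpow_natCast]
    rw [h2]
    have h3 : 0 ≤ (2 * K) ^ (1 / p) := by positivity
    exact mul_le_mul_of_nonneg_left (mul_le_mul_of_nonneg_right h1 (by positivity)) h3
  have hM₃ : (∫⁻ x, (∑' j, f₃ j x) ^ p) ^ (1 / p) ≤
      ENNReal.ofReal ((2 * K) ^ (1 / p) * S) * X ^ (1 / p) := by
    refine (mink_tsum hp1.le f₃ hm₃).trans ((ENNReal.tsum_le_tsum hN₃).trans (le_of_eq ?_))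
    rw [ENNReal.tsum_mul_right, ← ENNReal.ofReal_tsum_of_nonneg (fun j => by positivity)
      (hsum.mul_left _), tsum_mul_left]
  have hM : (∫⁻ x, ((f₁ + f₂) x + ∑' j, f₃ j x) ^ p) ^ (1 / p) ≤
      ENNReal.ofReal Dr * X ^ (1 / p) := by
    have h1 := ENNReal.lintegral_Lp_add_le (μ := (volume : Measure Pl)) (f := f₁ + f₂)
      (g := fun x => ∑' j, f₃ j x) (hm₁.add hm₂).aemeasurable
      (Measurable.ennreal_tsum hm₃).aemeasurable hp1.le
    have h2 := ENNReal.lintegral_Lp_add_le (μ := (volume : Measure Pl)) (f := f₁)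
      (g := f₂) hm₁.aemeasurable hm₂.aemeasurable hp1.le
    refine h1.trans ?_
    calc _ ≤ (ENNReal.ofReal ((CD ^ p * CS) ^ (1 / p)) * X ^ (1 / p) +
          ENNReal.ofReal (K ^ (1 / p)) * X ^ (1 / p)) +
          ENNReal.ofReal ((2 * K) ^ (1 / p) * S) * X ^ (1 / p) :=
          add_le_add (h2.trans (add_le_add hN₁ hN₂)) hM₃
      _ = _ := by
          rw [← add_mul, ← add_mul, ← ENNReal.ofReal_add (by positivity) (by positivity),
            ← ENNReal.ofReal_add (by positivity) (by positivity)]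
  calc ∫⁻ x, (⨆ k : ℤ, ENNReal.ofReal (Av ν ((2 : ℝ) ^ k) g x)) ^ p
      ≤ ∫⁻ x, ((f₁ + f₂) x + ∑' j, f₃ j x) ^ p := lintegral_mono_ae hae
    _ = ((∫⁻ x, ((f₁ + f₂) x + ∑' j, f₃ j x) ^ p) ^ (1 / p)) ^ p := by
        rw [← ENNReal.rpow_mul, one_div, inv_mul_cancel₀ hp0.ne', ENNReal.rpow_one]
    _ ≤ (ENNReal.ofReal Dr * X ^ (1 / p)) ^ p := ENNReal.rpow_le_rpow hM hp0.le
    _ = ENNReal.ofReal (Dr ^ p) * X := by
        rw [ENNReal.mul_rpow_of_nonneg _ _ hp0.le, ENNReal.ofReal_rpow_of_nonneg hDr0.le hp0.le,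
          ← ENNReal.rpow_mul, one_div, inv_mul_cancel₀ hp0.ne', ENNReal.rpow_one]
    _ = _ := by
        rw [hX, om _ _ (by positivity), mul_assoc (Dr ^ p)]

end Pool.Agent.Helper29.LM.PB

namespace Pool.Agent.Helper29.LM

open Pool.Agent.Helper68.LM

/-- PB. -/
theorem hPB (hBBC : StBBC) (hHLS : StHLS) (hHLD : StHLD) (hL2D : StL2D) (hCONV : StCONV)
    (hTD : StTD) : StPB :=
  PB.hPB hBBC hHLS hHLD hL2D hCONV hTD

end Pool.Agent.Helper29.LM
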